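import Pool.Agent.H93.AR.Defs

/-! # CP: bounds of derivatives, uniformly over compact sets of parameters -/

set_option autoImplicit false

namespace Pool.Agent.H12.AR

open Set Pool.Agent.H93.AR

theorem pf_cp : T_CP := by
  intro P E F _ _ _ _ _ _ k Ψ O K hO hΨ hK hKO
  have hk : (k : WithTop ℕ∞) ≤ ((⊤ : ℕ∞) : WithTop ℕ∞) := by exact_mod_cast le_top
  have hcont : ContinuousOn (iteratedFDerivWithin ℝ k Ψ O) O :=
    hΨ.continuousOn_iteratedFDerivWithin hk hO.uniqueDiffOn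
  obtain ⟨C, hC⟩ := hK.exists_bound_of_continuousOn (hcont.mono hKO)
  refine ⟨C, fun q hq => ?_⟩
  have hqO : q ∈ O := hKO hq
  let g : E →L[ℝ] P × E := ContinuousLinearMap.inr ℝ P E
  let a : P × E := (q.1, 0)
  let Φ : P × E → F := fun w => Ψ (a + w)
  let O' : Set (P × E) := (fun w => a + w) ⁻¹' O
  have hO' : IsOpen O' := hO.preimage (continuous_const.add continuous_id)
  have hΦc : ContDiffOn ℝ (⊤ : ℕ∞) Φ O' :=
    hΨ.comp (contDiff_const.add contDiff_id).contDiffOn fun _ h => h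
  have hag : a + g q.2 = q := by
    show (q.1, (0 : E)) + ((0 : P), q.2) = q
    ext <;> simp
  have hx : g q.2 ∈ O' := by
    show a + g q.2 ∈ O
    rw [hag]; exact hqO
  have hO'' : IsOpen (g ⁻¹' O') := hO'.preimage g.continuous
  have h1 := g.iteratedFDerivWithin_comp_right hΦc hO'.uniqueDiffOn hO''.uniqueDiffOn hx hk
  rw [iteratedFDerivWithin_of_isOpen k hO'' hx, iteratedFDerivWithin_of_isOpen k hO' hx] at h1
  have h2 : iteratedFDeriv ℝ k Φ (g q.2) = iteratedFDeriv ℝ k Ψ q := by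
    show iteratedFDeriv ℝ k (fun w => Ψ (a + w)) (g q.2) = _
    rw [iteratedFDeriv_comp_add_left, hag]
  have h3 : (Φ ∘ g) = fun x => Ψ (q.1, x) := by
    funext x
    show Ψ ((q.1, (0 : E)) + ((0 : P), x)) = Ψ (q.1, x)
    congr 1
    ext <;> simp
  rw [h3, h2] at h1
  rw [h1]
  refine (ContinuousMultilinearMap.norm_compContinuousLinearMap_le _ _).trans ?_
  have h4 : ∏ _i : Fin k, ‖g‖ ≤ 1 := by
    rw [Finset.prod_const]
    exact pow_le_one₀ (norm_nonneg _) (ContinuousLinearMap.norm_inr_le_one ℝ P E)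
  have h5 : ‖iteratedFDeriv ℝ k Ψ q‖ ≤ C := by
    have h6 := hC q hq
    rwa [iteratedFDerivWithin_of_isOpen k hO hqO] at h6
  calc ‖iteratedFDeriv ℝ k Ψ q‖ * ∏ _i : Fin k, ‖g‖ ≤ ‖iteratedFDeriv ℝ k Ψ q‖ * 1 :=
        mul_le_mul_of_nonneg_left h4 (norm_nonneg _)
    _ ≤ C := by rw [mul_one]; exact h5

end Pool.Agent.H12.AR
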