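import Pool.Agent.H93.AR.Defs

/-! # GN: the gnomonic chart of the sphere -/

set_option autoImplicit false

namespace Pool.Agent.H12.AR

open MeasureTheory Set Pool.Agent.H83.LS Pool.Agent.H54.LS Pool.Agent.H93.AR
open scoped ENNReal NNReal

/-- `√(1 + |z|²)` -/
noncomputable def gs {m : ℕ} (z : EE m) : ℝ := Real.sqrt (1 + ‖z‖ ^ 2)

theorem gs_pos {m : ℕ} (z : EE m) : 0 < gs z := Real.sqrt_pos.2 (by positivity)

theorem continuous_gs {m : ℕ} : Continuous (gs : EE m → ℝ) := by
  unfold gs; fun_prop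

/-- the gnomonic map -/
noncomputable def gm {m : ℕ} (z : EE m) : EE (m + 1) := (gs z)⁻¹ • jo z 1

theorem continuous_gm {m : ℕ} : Continuous (gm : EE m → EE (m + 1)) := by
  have h1 : Continuous fun z : EE m => (gs z)⁻¹ :=
    continuous_gs.inv₀ fun z => (gs_pos z).ne'
  have h2 : Continuous fun z : EE m => jo z 1 :=
    continuous_jo.comp (continuous_id.prodMk continuous_const)
  exact h1.smul h2

theorem norm_jo_one {m : ℕ} (z : EE m) : ‖jo z 1‖ = gs z := by
  have h1 := jo_norm_sq z 1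
  unfold gs
  rw [← Real.sqrt_sq (norm_nonneg (jo z 1)), h1]
  congr 1
  ring

theorem gm_last {m : ℕ} (z : EE m) : (gm z) (Fin.last m) = (gs z)⁻¹ := by
  show ((gs z)⁻¹ • jo z 1) (Fin.last m) = _
  rw [PiLp.smul_apply, jo_last, smul_eq_mul, mul_one]

theorem jo_smul {m : ℕ} (t : ℝ) (z : EE m) : jo (t • z) t = t • jo z 1 := by
  ext i
  refine Fin.lastCases ?_ (fun j => ?_) i
  · rw [jo_last, PiLp.smul_apply, jo_last, smul_eq_mul, mul_one]
  · rw [jo_castSucc, PiLp.smul_apply, PiLp.smul_apply, jo_castSucc]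

/-- the radial cutoff -/
noncomputable def cph (t : ℝ) : ℝ≥0∞ := (Icc (1 : ℝ) 2).indicator (fun _ => 1) t

theorem measurable_cph : Measurable cph := measurable_const.indicator measurableSet_Icc

/-- the radial constant -/
noncomputable def cc (m : ℕ) : ℝ≥0∞ := ∫⁻ t in Ioi (0 : ℝ), ENNReal.ofReal (t ^ m) * cph t

theorem cc_ne_zero (m : ℕ) : cc m ≠ 0 := by
  have h1 : (1 : ℝ≥0∞) ≤ cc m := by
    calc (1 : ℝ≥0∞) = ∫⁻ t in Icc (1 : ℝ) 2, 1 := by
          rw [setLIntegral_const, Real.volume_Icc]; norm_num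
      _ ≤ ∫⁻ t in Icc (1 : ℝ) 2, ENNReal.ofReal (t ^ m) * cph t := by
          refine setLIntegral_mono' measurableSet_Icc fun t ht => ?_
          have h2 : cph t = 1 := indicator_of_mem ht _
          rw [h2, mul_one]
          rw [← ENNReal.ofReal_one]
          exact ENNReal.ofReal_le_ofReal (one_le_pow₀ ht.1)
      _ ≤ cc m := by
          refine lintegral_mono_set fun t ht => ?_
          exact lt_of_lt_of_le one_pos ht.1
  intro h
  rw [h] at h1
  exact absurd h1 (by simp)

theorem cc_ne_top (m : ℕ) : cc m ≠ ∞ := by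
  have h1 : cc m ≤ ENNReal.ofReal (2 ^ m) := by
    calc cc m ≤ ∫⁻ t : ℝ, ENNReal.ofReal (t ^ m) * cph t := setLIntegral_le_lintegral _ _
      _ ≤ ∫⁻ t : ℝ, (Icc (1 : ℝ) 2).indicator (fun _ => ENNReal.ofReal (2 ^ m)) t := by
          refine lintegral_mono fun t => ?_
          show ENNReal.ofReal (t ^ m) * cph t ≤ _
          by_cases ht : t ∈ Icc (1 : ℝ) 2
          · have h2 : cph t = 1 := indicator_of_mem ht _
            rw [h2, mul_one, indicator_of_mem ht]
            exact ENNReal.ofReal_le_ofReal (pow_le_pow_left₀ (zero_le_one.trans ht.1) ht.2 m)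
          · have h2 : cph t = 0 := indicator_of_notMem ht _
            rw [h2, mul_zero]
            exact bot_le
      _ = ENNReal.ofReal (2 ^ m) := by
          rw [lintegral_indicator measurableSet_Icc, setLIntegral_const, Real.volume_Icc]
          norm_num
  exact ne_top_of_le_ne_top ENNReal.ofReal_ne_top h1

/-- auxiliary radial function -/
noncomputable def rG (m : ℕ) (s t : ℝ) : ℝ≥0∞ := (Ioi (0 : ℝ)).indicator
  (fun t => ENNReal.ofReal ((t / s) ^ m) * cph t) t

theorem measurable_rG (m : ℕ) (s : ℝ) : Measurable (rG m s) := by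
  refine Measurable.indicator ?_ measurableSet_Ioi
  exact (ENNReal.measurable_ofReal.comp (by fun_prop)).mul measurable_cph

/-- scaling of the radial integral -/
theorem cc_scale (m : ℕ) {s : ℝ} (hs : 0 < s) :
    ∫⁻ t in Ioi (0 : ℝ), ENNReal.ofReal (t ^ m) * cph (t * s) =
      ENNReal.ofReal ((s ^ (m + 1))⁻¹) * cc m := by
  have h1 : ∫⁻ t in Ioi (0 : ℝ), ENNReal.ofReal (t ^ m) * cph (t * s) =
      ∫⁻ t : ℝ, rG m s (t * s) := by
    rw [← lintegral_indicator measurableSet_Ioi]
    refine lintegral_congr fun t => ?_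
    unfold rG
    by_cases ht : 0 < t
    · rw [indicator_of_mem (show t ∈ Ioi (0 : ℝ) from ht),
        indicator_of_mem (show t * s ∈ Ioi (0 : ℝ) from mul_pos ht hs), mul_div_assoc,
        div_self hs.ne', mul_one]
    · rw [indicator_of_notMem (show t ∉ Ioi (0 : ℝ) from ht),
        indicator_of_notMem (show t * s ∉ Ioi (0 : ℝ) from fun h => ht ?_)]
      exact (pos_iff_pos_of_mul_pos h).2 hs
  rw [h1, ← lintegral_map (measurable_rG m s) (measurable_mul_const s),
    Real.map_volume_mul_right hs.ne', lintegral_smul_measure]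
  have h2 : ∫⁻ t : ℝ, rG m s t = ENNReal.ofReal ((s ^ m)⁻¹) * cc m := by
    unfold cc rG
    rw [lintegral_indicator measurableSet_Ioi, ← lintegral_const_mul' _ _ ENNReal.ofReal_ne_top]
    refine setLIntegral_congr_fun measurableSet_Ioi fun t ht => ?_
    show ENNReal.ofReal ((t / s) ^ m) * cph t =
      ENNReal.ofReal ((s ^ m)⁻¹) * (ENNReal.ofReal (t ^ m) * cph t)
    rw [← mul_assoc, ← ENNReal.ofReal_mul (by positivity), div_pow, div_eq_mul_inv,
      mul_comm ((s ^ m)⁻¹)]
  rw [h2, smul_eq_mul, ← mul_assoc, ← ENNReal.ofReal_mul (abs_nonneg _),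
    abs_of_pos (inv_pos.2 hs), ← mul_inv]
  congr 3
  ring

theorem lint_nu (m : ℕ) : ∫⁻ t : Ioi (0 : ℝ), cph t ∂(nu (m + 1)) = cc m := by
  have h0 : nu (m + 1) = Measure.volumeIoiPow m := rfl
  rw [h0, Measure.volumeIoiPow]
  rw [lintegral_withDensity_eq_lintegral_mul (g := fun t : Ioi (0 : ℝ) => cph t) _ (by fun_prop)
    (measurable_cph.comp measurable_subtype_coe)]
  exact lintegral_subtype_comap measurableSet_Ioi fun t : ℝ => ENNReal.ofReal (t ^ m) * cph t

/-- scaling of the integral over `ℝ^m` -/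
theorem lint_smul (m : ℕ) (g : EE m → ℝ≥0∞) (hg : Measurable g) {t : ℝ} (ht : 0 < t) :
    ∫⁻ y : EE m, g y = ENNReal.ofReal (t ^ m) * ∫⁻ z : EE m, g (t • z) := by
  have h1 : ∫⁻ z : EE m, g (t • z) = ENNReal.ofReal ((t ^ m)⁻¹) * ∫⁻ y : EE m, g y := by
    rw [← lintegral_map hg (measurable_const_smul t), Measure.map_addHaar_smul _ ht.ne',
      lintegral_smul_measure, finrank_euclideanSpace_fin, smul_eq_mul,
      abs_of_pos (inv_pos.2 (pow_pos ht m))]
  rw [h1, ← mul_assoc, ← ENNReal.ofReal_mul (pow_pos ht m).le,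
    mul_inv_cancel₀ (pow_pos ht m).ne', ENNReal.ofReal_one, one_mul]

/-- the radial extension of a function on the sphere -/
noncomputable def rF {m : ℕ} (h : EE (m + 1) → ℝ≥0∞) (y : EE (m + 1)) : ℝ≥0∞ :=
  h (‖y‖⁻¹ • y) * cph ‖y‖

theorem measurable_rF {m : ℕ} {h : EE (m + 1) → ℝ≥0∞} (hh : Measurable h) :
    Measurable (rF h) := by
  refine (hh.comp ?_).mul (measurable_cph.comp measurable_norm)
  exact measurable_norm.inv.smul measurable_id

theorem rF_polar {m : ℕ} (h : EE (m + 1) → ℝ≥0∞) (hh : Measurable h) :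
    ∫⁻ y, rF h y = (∫⁻ w : Sp (m + 1), h w ∂(sg (m + 1))) * cc m := by
  rw [← (mp_polar (m + 1) (Nat.succ_pos m)).lintegral_comp (measurable_rF hh)]
  have h1 : ∀ q : Sp (m + 1) × Ioi (0 : ℝ), rF h ((q.2 : ℝ) • (q.1 : EE (m + 1))) =
      (fun w : Sp (m + 1) => h w) q.1 * (fun t : Ioi (0 : ℝ) => cph t) q.2 := by
    rintro ⟨w, t⟩
    have ht : (0 : ℝ) < t := t.2
    have hw : ‖(w : EE (m + 1))‖ = 1 := by
      have := w.2
      rwa [mem_sphere_zero_iff_norm] at this
    have h2 : ‖(t : ℝ) • (w : EE (m + 1))‖ = t := by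
      rw [norm_smul, hw, mul_one, Real.norm_of_nonneg ht.le]
    show h (‖(t : ℝ) • (w : EE (m + 1))‖⁻¹ • (t : ℝ) • (w : EE (m + 1))) *
      cph ‖(t : ℝ) • (w : EE (m + 1))‖ = h w * cph t
    rw [h2, smul_smul, inv_mul_cancel₀ ht.ne', one_smul]
  rw [lintegral_congr h1]
  rw [lintegral_prod_mul (f := fun w : Sp (m + 1) => h w) (g := fun t : Ioi (0 : ℝ) => cph t)
    (hh.comp measurable_subtype_coe).aemeasurable
    (measurable_cph.comp measurable_subtype_coe).aemeasurable, lint_nu]

theorem rF_slice {m : ℕ} (h : EE (m + 1) → ℝ≥0∞) (hh : Measurable h)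
    (h0 : ∀ x : EE (m + 1), x (Fin.last m) ≤ 0 → h x = 0) (t : ℝ) :
    ∫⁻ y : EE m, rF h (jo y t) = (Ioi (0 : ℝ)).indicator
      (fun t => ∫⁻ z : EE m, ENNReal.ofReal (t ^ m) * rF h (t • jo z 1)) t := by
  by_cases ht : 0 < t
  · rw [indicator_of_mem (show t ∈ Ioi (0 : ℝ) from ht)]
    have h3 : Measurable fun y : EE m => rF h (jo y t) :=
      (measurable_rF hh).comp
        (continuous_jo.comp (continuous_id.prodMk continuous_const)).measurable
    rw [lint_smul m _ h3 ht, lintegral_const_mul' _ _ ENNReal.ofReal_ne_top]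
    refine congrArg _ (lintegral_congr fun z => ?_)
    rw [jo_smul]
  · rw [indicator_of_notMem (show t ∉ Ioi (0 : ℝ) from ht)]
    rw [← lintegral_zero (μ := (volume : Measure (EE m)))]
    refine lintegral_congr fun y => ?_
    show h (‖jo y t‖⁻¹ • jo y t) * cph ‖jo y t‖ = 0
    rw [h0, zero_mul]
    rw [PiLp.smul_apply, jo_last, smul_eq_mul]
    exact mul_nonpos_of_nonneg_of_nonpos (inv_nonneg.2 (norm_nonneg _)) (not_lt.1 ht)

theorem rF_ray {m : ℕ} (h : EE (m + 1) → ℝ≥0∞) (z : EE m) :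
    ∫⁻ t in Ioi (0 : ℝ), ENNReal.ofReal (t ^ m) * rF h (t • jo z 1) =
      h (gm z) * ENNReal.ofReal ((gs z ^ (m + 1))⁻¹) * cc m := by
  have hs := gs_pos z
  have h2 : ∀ t ∈ Ioi (0 : ℝ), ENNReal.ofReal (t ^ m) * rF h (t • jo z 1) =
      h (gm z) * (ENNReal.ofReal (t ^ m) * cph (t * gs z)) := by
    intro t ht
    have ht' : (0 : ℝ) < t := ht
    have h3 : ‖t • jo z 1‖ = t * gs z := by
      rw [norm_smul, Real.norm_of_nonneg ht'.le, norm_jo_one]
    have h4 : ‖t • jo z 1‖⁻¹ • t • jo z 1 = gm z := by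
      rw [h3, smul_smul, mul_inv, mul_comm t⁻¹, mul_assoc, inv_mul_cancel₀ ht'.ne', mul_one]
      rfl
    unfold rF
    rw [h4, h3]
    ring
  rw [setLIntegral_congr_fun measurableSet_Ioi h2, lintegral_const_mul, cc_scale m hs]
  · ring
  · exact (ENNReal.measurable_ofReal.comp (by fun_prop)).mul
      (measurable_cph.comp (by fun_prop))

theorem rF_cart {m : ℕ} (h : EE (m + 1) → ℝ≥0∞) (hh : Measurable h)
    (h0 : ∀ x : EE (m + 1), x (Fin.last m) ≤ 0 → h x = 0) : ∫⁻ y, rF h y =
      (∫⁻ z : EE m, h (gm z) * ENNReal.ofReal ((gs z ^ (m + 1))⁻¹)) * cc m := by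
  rw [← (mp_jo m).lintegral_comp (measurable_rF hh)]
  have hFj : Measurable fun q : EE m × ℝ => rF h (jo q.1 q.2) :=
    (measurable_rF hh).comp continuous_jo.measurable
  rw [lintegral_prod_symm _ hFj.aemeasurable, lintegral_congr (rF_slice h hh h0),
    lintegral_indicator measurableSet_Ioi, lintegral_lintegral_swap]
  · rw [← lintegral_mul_const' _ _ (cc_ne_top m)]
    exact lintegral_congr fun z => rF_ray h z
  · refine Measurable.aemeasurable ?_
    refine (ENNReal.measurable_ofReal.comp ?_).mul ((measurable_rF hh).comp ?_)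
    · exact measurable_fst.pow_const m
    · have h2 : Measurable fun q : ℝ × EE m => jo q.2 1 :=
        (continuous_jo.comp (continuous_snd.prodMk continuous_const)).measurable
      exact measurable_fst.smul h2

/-- lower integrals in the gnomonic chart -/
theorem gn_lint (m : ℕ) (h : EE (m + 1) → ℝ≥0∞) (hh : Measurable h)
    (h0 : ∀ x : EE (m + 1), x (Fin.last m) ≤ 0 → h x = 0) :
    ∫⁻ w : Sp (m + 1), h w ∂(sg (m + 1)) =
      ∫⁻ z : EE m, h (gm z) * ENNReal.ofReal ((gs z ^ (m + 1))⁻¹) := by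
  have h3 := (rF_polar h hh).symm.trans (rF_cart h hh h0)
  exact (ENNReal.mul_left_inj (cc_ne_zero m) (cc_ne_top m)).1 h3

theorem pf_gn : T_GN := by
  intro m f hf _ h0
  let S : Set (Sp (m + 1)) := {w | 0 < (w : EE (m + 1)) (Fin.last m)}
  have hlast : Measurable fun x : EE (m + 1) => x (Fin.last m) := by fun_prop
  have hS : MeasurableSet S :=
    measurableSet_lt measurable_const (hlast.comp measurable_subtype_coe)
  let d : EE m → ℝ≥0∞ := fun z => ENNReal.ofReal ((gs z ^ (m + 1))⁻¹)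
  have hd : Measurable d := by
    refine ENNReal.measurable_ofReal.comp ?_
    exact (continuous_gs.measurable.pow_const _).inv
  have hμ : ((sg (m + 1)).restrict S).map (fun w : Sp (m + 1) => (w : EE (m + 1))) =
      ((volume : Measure (EE m)).withDensity d).map gm := by
    refine Measure.ext_of_lintegral _ fun h hh => ?_
    rw [lintegral_map hh measurable_subtype_coe, lintegral_map hh continuous_gm.measurable,
      ← lintegral_indicator hS, lintegral_withDensity_eq_lintegral_mul
        (g := fun z : EE m => h (gm z)) _ hd (hh.comp continuous_gm.measurable)]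
    let T : Set (EE (m + 1)) := {x | 0 < x (Fin.last m)}
    have hT : MeasurableSet T := measurableSet_lt measurable_const hlast
    have h1 := gn_lint m (T.indicator h) (hh.indicator hT) fun x hx =>
      indicator_of_notMem (show x ∉ T from not_lt.2 hx) _
    have h2 : ∀ w : Sp (m + 1), S.indicator (fun w : Sp (m + 1) => h w) w =
        T.indicator h (w : EE (m + 1)) := fun w => rfl
    rw [lintegral_congr h2, h1]
    refine lintegral_congr fun z => ?_
    have h3 : gm z ∈ T := by
      show 0 < (gm z) (Fin.last m)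
      rw [gm_last]
      exact inv_pos.2 (gs_pos z)
    rw [indicator_of_mem h3, mul_comm]
    rfl
  have h1 : ∫ w : Sp (m + 1), f w ∂(sg (m + 1)) =
      ∫ x, f x ∂(((sg (m + 1)).restrict S).map (fun w : Sp (m + 1) => (w : EE (m + 1)))) := by
    rw [integral_map measurable_subtype_coe.aemeasurable hf.aestronglyMeasurable]
    symm
    refine setIntegral_eq_integral_of_forall_compl_eq_zero fun w hw => ?_
    exact h0 _ (not_lt.1 hw)
  rw [h1, hμ, integral_map continuous_gm.measurable.aemeasurable hf.aestronglyMeasurable,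
    integral_withDensity_eq_integral_toReal_smul hd
      (Filter.Eventually.of_forall fun _ => ENNReal.ofReal_lt_top)]
  refine integral_congr_ae (Filter.Eventually.of_forall fun z => ?_)
  show (ENNReal.ofReal ((gs z ^ (m + 1))⁻¹)).toReal • f (gm z) = f (gm z) *
    (((gs z ^ (m + 1))⁻¹ : ℝ) : ℂ)
  have hs := gs_pos z
  rw [ENNReal.toReal_ofReal (by positivity), Complex.real_smul, mul_comm]

end Pool.Agent.H12.AR
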